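import Pool.Agent.TH901.AR.As

/-!
# Finitely generated absolute Galois group: finitely many Artin–Schreier classes
-/

set_option autoImplicit false

namespace Pool.TH901.AR

open Finset Polynomial IntermediateField

/-- an element of the algebraic closure with `β ^ p - β ∈ K` fixed by all automorphisms is in `K` -/
theorem mem_of_fixed {p : ℕ} [Fact p.Prime] {K : Type} [Field K] [CharP K p] (c : K)
    (β : AlgebraicClosure K) (hβ : β ^ p - β = algebraMap K (AlgebraicClosure K) c)
    (hfix : ∀ σ : AlgebraicClosure K ≃ₐ[K] AlgebraicClosure K, σ β = β) :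
    β ∈ (algebraMap K (AlgebraicClosure K)).range := by
  classical
  have hint : IsIntegral K β := Algebra.IsIntegral.isIntegral β
  rw [← minpoly.natDegree_eq_one_iff]
  have hdvd : minpoly K β ∣ (X ^ p - X - C c : K[X]) := by
    apply minpoly.dvd
    simp [hβ]
  have hsep : (X ^ p - X - C c : K[X]).Separable := by
    rw [Polynomial.separable_def]
    have hd : derivative (X ^ p - X - C c : K[X]) = -1 := by
      simp [derivative_X_pow]
    rw [hd]
    exact isCoprime_one_right.neg_right
  have hsep2 : (minpoly K β).Separable := hsep.of_dvd hdvd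
  have hcard := card_rootSet_eq_natDegree (K := AlgebraicClosure K) hsep2
    (IsAlgClosed.splits _)
  have hsub : (minpoly K β).rootSet (AlgebraicClosure K) ⊆ {β} := by
    intro y hy
    rw [Set.mem_singleton_iff]
    have h1 : aeval y (minpoly K β) = 0 := ((mem_rootSet).1 hy).2
    have h2 : IsConjRoot K β y := (isConjRoot_iff_aeval_eq_zero hint).2 h1
    obtain ⟨σ, hσ⟩ := isConjRoot_iff_exists_algEquiv.1 h2.symm
    rw [← hσ, hfix σ]
  have hle : (minpoly K β).natDegree ≤ 1 := by
    rw [← hcard, Fintype.card_le_one_iff_subsingleton]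
    refine ⟨fun a b => Subtype.ext ?_⟩
    rw [Set.mem_singleton_iff.1 (hsub a.2), Set.mem_singleton_iff.1 (hsub b.2)]
  have hpos := minpoly.natDegree_pos hint
  omega

theorem index_of_fg {p : ℕ} [Fact p.Prime] {K : Type} [Field K] [CharP K p]
    (hG : ∃ S : Set (Field.absoluteGaloisGroup K), S.Finite ∧
        closure ((Subgroup.closure S : Subgroup (Field.absoluteGaloisGroup K)) :
          Set (Field.absoluteGaloisGroup K)) = Set.univ) :
    (wp K p).range.index ≠ 0 := by
  classical
  obtain ⟨S, hS, hcl⟩ := hG
  have : CharP (AlgebraicClosure K) p :=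
    charP_of_injective_algebraMap (algebraMap K (AlgebraicClosure K)).injective p
  have hp1 : 1 < p := (Fact.out : p.Prime).one_lt
  have hroot : ∀ a : K, ∃ α : AlgebraicClosure K,
      α ^ p - α = algebraMap K (AlgebraicClosure K) a := by
    intro a
    obtain ⟨α, hα⟩ := IsAlgClosed.exists_root
      (X ^ p - X - C (algebraMap K (AlgebraicClosure K) a) : (AlgebraicClosure K)[X]) (by
        intro h0
        have h1 : (X ^ p - X - C (algebraMap K (AlgebraicClosure K) a) :
            (AlgebraicClosure K)[X]).natDegree = 0 :=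
          natDegree_eq_zero_iff_degree_le_zero.2 h0.le
        rw [natDegree_sub_C, FiniteField.X_pow_card_sub_X_natDegree_eq _ hp1] at h1
        omega)
    refine ⟨α, ?_⟩
    simp only [IsRoot.def, eval_sub, eval_pow, eval_X, eval_C] at hα
    exact sub_eq_zero.1 hα
  choose α hα using hroot
  let T : Finset (AlgebraicClosure K) := (X ^ p - X : (AlgebraicClosure K)[X]).roots.toFinset
  have hT : ∀ (a : K) (σ : AlgebraicClosure K ≃ₐ[K] AlgebraicClosure K), σ (α a) - α a ∈ T := by
    intro a σ
    rw [Multiset.mem_toFinset, mem_roots (FiniteField.X_pow_card_sub_X_ne_zero _ hp1)]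
    simp only [IsRoot.def, eval_sub, eval_pow, eval_X]
    have h1 := congrArg σ (hα a)
    rw [map_sub, map_pow, AlgEquiv.commutes] at h1
    rw [sub_pow_char]
    linear_combination h1 - hα a
  let act : Field.absoluteGaloisGroup K → (AlgebraicClosure K ≃ₐ[K] AlgebraicClosure K) := id
  have : Finite S := hS
  let Φ : K → (S → T) := fun a σ => ⟨act σ.1 (α a) - α a, hT a _⟩
  have key : ∀ a b, Φ a = Φ b → a - b ∈ (wp K p).range := by
    intro a b hab
    have hfixS : ∀ σ ∈ S, act σ (α a - α b) = α a - α b := by
      intro σ hσ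
      have h1 := congrArg Subtype.val (congrFun hab ⟨σ, hσ⟩)
      simp only [Φ] at h1
      rw [map_sub]
      linear_combination h1
    have hβ : (α a - α b) ^ p - (α a - α b) = algebraMap K (AlgebraicClosure K) (a - b) := by
      rw [sub_pow_char, map_sub, ← hα a, ← hα b]
      ring
    let S'' : Set (AlgebraicClosure K ≃ₐ[K] AlgebraicClosure K) := S
    let S' : Subgroup (AlgebraicClosure K ≃ₐ[K] AlgebraicClosure K) := Subgroup.closure S''
    have h2 : α a - α b ∈ fixedField S' := by
      intro g
      have h3 : S' ≤ MulAction.stabilizer (AlgebraicClosure K ≃ₐ[K] AlgebraicClosure K)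
          (α a - α b) := by
        refine (Subgroup.closure_le _).2 ?_
        intro σ hσ
        exact hfixS σ hσ
      exact h3 g.2
    have h4 : K⟮α a - α b⟯ ≤ fixedField S' := adjoin_simple_le_iff.2 h2
    have h5 : S' ≤ fixingSubgroup K⟮α a - α b⟯ := (IntermediateField.le_iff_le _ _).1 h4
    have hfd : FiniteDimensional K K⟮α a - α b⟯ :=
      adjoin.finiteDimensional (Algebra.IsIntegral.isIntegral _)
    have h6 : IsClosed ((fixingSubgroup K⟮α a - α b⟯ :
        Subgroup (AlgebraicClosure K ≃ₐ[K] AlgebraicClosure K)) :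
        Set (AlgebraicClosure K ≃ₐ[K] AlgebraicClosure K)) :=
      IntermediateField.fixingSubgroup_isClosed _
    have h7 : closure (S' : Set (AlgebraicClosure K ≃ₐ[K] AlgebraicClosure K)) ⊆
        (fixingSubgroup K⟮α a - α b⟯ : Set (AlgebraicClosure K ≃ₐ[K] AlgebraicClosure K)) :=
      closure_minimal h5 h6
    have hfix : ∀ σ : AlgebraicClosure K ≃ₐ[K] AlgebraicClosure K,
        σ (α a - α b) = α a - α b := by
      intro σ
      have h8 : σ ∈ (fixingSubgroup K⟮α a - α b⟯ :
          Set (AlgebraicClosure K ≃ₐ[K] AlgebraicClosure K)) := by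
        apply h7
        have : closure (S' : Set (AlgebraicClosure K ≃ₐ[K] AlgebraicClosure K)) = Set.univ := hcl
        rw [this]
        exact Set.mem_univ _
      exact (mem_fixingSubgroup_iff _ _).1 h8 _ (mem_adjoin_simple_self K _)
    obtain ⟨z, hz⟩ := mem_of_fixed (a - b) (α a - α b) hβ hfix
    refine ⟨z, ?_⟩
    change z ^ p - z = a - b
    apply (algebraMap K (AlgebraicClosure K)).injective
    rw [← hβ, map_sub, map_pow, hz]
  have hfin : Finite (K ⧸ (wp K p).range) := by
    apply Finite.of_injective (fun q : K ⧸ (wp K p).range => Φ q.out)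
    intro q q' h
    have h1 := key _ _ h.symm
    rw [← QuotientAddGroup.out_eq' q, ← QuotientAddGroup.out_eq' q']
    rw [QuotientAddGroup.eq]
    rw [neg_add_eq_sub]
    exact h1
  exact (AddSubgroup.finiteIndex_of_finite_quotient (H := (wp K p).range)).index_ne_zero

end Pool.TH901.AR
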