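import Pool.Agent.TH901.AR.Kummer

/-!
# Infinitely many and Zariski dense rational points
-/

set_option autoImplicit false

namespace Pool.TH901.AR

open Finset

/-- infinitely many values of every coordinate that is not constant on the given `K((t))`-point -/
theorem kummer_inf (K : Type) [Field K] [Infinite K]
    (hK : ∀ n : ℕ, 1 ≤ n → (powMonoidHom n : Kˣ →* Kˣ).range.index ≠ 0)
    {I J V : Type} [Fintype I] [Fintype J] [Fintype V]
    (a : I → K) (A : I → V → K) (c : J → K) (m : J → ℕ) (e : J → I → ℕ) (hm : ∀ j, 1 ≤ m j)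
    (ξ : V → LaurentSeries K) (υ : J → LaurentSeries K)
    (h : ∀ j, υ j ^ m j = HahnSeries.C (c j) * ∏ i,
      (HahnSeries.C (a i) + ∑ v, HahnSeries.C (A i v) * ξ v) ^ e j i)
    (v0 : V) (hv0 : ∀ α : K, ξ v0 ≠ HahnSeries.C α) :
    {t : K | ∃ (x : V → K) (y : J → K),
      (∀ j, y j ^ m j = c j * ∏ i, (a i + ∑ v, A i v * x v) ^ e j i) ∧ x v0 = t}.Infinite := by
  classical
  intro hfin
  let F : Finset K := hfin.toFinset
  obtain ⟨x, y, h1, h2, -⟩ := kummer K hK (I := I ⊕ F) (J := J) (V := V)
    (fun i => Sum.elim a (fun α : F => -(α : K)) i)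
    (fun i => Sum.elim A (fun _ => Pi.single v0 1) i)
    c m (fun j i => Sum.elim (e j) (fun _ => 0) i) hm ξ υ (by
      intro j
      rw [Fintype.prod_sum_type]
      simp only [Sum.elim_inl, Sum.elim_inr, pow_zero, Finset.prod_const_one, mul_one]
      exact h j)
  have hx : x v0 ∈ F := by
    rw [Set.Finite.mem_toFinset]
    refine ⟨x, y, fun j => ?_, rfl⟩
    have := h1 j
    rw [Fintype.prod_sum_type] at this
    simp only [Sum.elim_inl, Sum.elim_inr, pow_zero, Finset.prod_const_one, mul_one] at this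
    exact this
  have h3 := (h2 (Sum.inr ⟨x v0, hx⟩)).1 (by
    simp only [Sum.elim_inr]
    rw [Finset.sum_eq_single v0]
    · rw [Pi.single_eq_same, one_mul, neg_add_cancel]
    · intro v _ hv
      rw [Pi.single_eq_of_ne hv, zero_mul]
    · intro hv; exact absurd (mem_univ v0) hv)
  simp only [Sum.elim_inr] at h3
  rw [Finset.sum_eq_single v0] at h3
  · rw [Pi.single_eq_same, map_one, one_mul, map_neg] at h3
    exact hv0 (x v0) (by linear_combination h3)
  · intro v _ hv
    rw [Pi.single_eq_of_ne hv, map_zero, zero_mul]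
  · intro hv; exact absurd (mem_univ v0) hv

theorem lc_line {K : Type} [Field K] (a b : K) (ha : a ≠ 0) :
    (HahnSeries.C a + HahnSeries.C b * HahnSeries.single 1 1 : LaurentSeries K).leadingCoeff
      = a := by
  by_cases hb : b = 0
  · rw [hb, map_zero, zero_mul, add_zero, lc_C]
  · have h1 : (HahnSeries.C b * HahnSeries.single 1 1 : LaurentSeries K) =
        HahnSeries.single 1 b := by
      rw [HahnSeries.C_apply, HahnSeries.single_mul_single, zero_add, mul_one]
    rw [h1, HahnSeries.leadingCoeff_add_eq_left, lc_C]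
    rw [HahnSeries.C_apply, HahnSeries.orderTop_single ha, HahnSeries.orderTop_single hb]
    exact_mod_cast (zero_lt_one : (0 : ℤ) < 1)

/-- infinitely many points on a line through an unramified point -/
theorem line (K : Type) [Field K] [Infinite K]
    (hK : ∀ n : ℕ, 1 ≤ n → (powMonoidHom n : Kˣ →* Kˣ).range.index ≠ 0)
    {I J : Type} [Fintype I] [Fintype J]
    (a b : I → K) (c : J → K) (m : J → ℕ) (e : J → I → ℕ) (hm : ∀ j, 1 ≤ m j)
    (y0 : J → K) (hy0 : ∀ j, y0 j ≠ 0) (h : ∀ j, y0 j ^ m j = c j * ∏ i, a i ^ e j i) :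
    {s : K | ∃ y : J → K, (∀ j, y j ≠ 0) ∧
      ∀ j, y j ^ m j = c j * ∏ i, (a i + b i * s) ^ e j i}.Infinite := by
  classical
  intro hfin
  let F : Finset K := hfin.toFinset
  obtain ⟨x, y, h1, h2, h3⟩ := kc K hK (I := I ⊕ F) (J := J) (V := Unit)
    (fun i => Sum.elim a (fun α : F => -(α : K)) i)
    (fun i _ => Sum.elim b (fun _ => 1) i)
    c m (fun j i => Sum.elim (e j) (fun _ => 0) i) hm (fun _ => HahnSeries.single 1 1) y0 (by
      intro j
      rw [Fintype.prod_sum_type]
      simp only [Sum.elim_inl, Sum.elim_inr, pow_zero, Finset.prod_const_one, mul_one,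
        Finset.univ_unique, Finset.sum_singleton]
      rw [h j]
      congr 1
      apply Finset.prod_congr rfl
      intro i _
      by_cases he : e j i = 0
      · rw [he, pow_zero, pow_zero]
      · have hai : a i ≠ 0 := by
          intro h0
          have : y0 j ^ m j = 0 := by
            rw [h j, Finset.prod_eq_zero (mem_univ i) (by rw [h0, zero_pow he]), mul_zero]
          exact pow_ne_zero _ (hy0 j) this
        rw [lc_line _ _ hai])
  simp only [Finset.univ_unique, Finset.sum_singleton] at h1 h2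
  have hx : x default ∈ F := by
    rw [Set.Finite.mem_toFinset]
    refine ⟨y, fun j hj => hy0 j ((h3 j).1 hj), fun j => ?_⟩
    have := h1 j
    rw [Fintype.prod_sum_type] at this
    simp only [Sum.elim_inl, Sum.elim_inr, pow_zero, Finset.prod_const_one, mul_one] at this
    exact this
  have h4 := (h2 (Sum.inr ⟨x default, hx⟩)).1 (by
    simp only [Sum.elim_inr]
    ring)
  simp only [Sum.elim_inr] at h4
  have h5 := congrArg (fun s : LaurentSeries K => s.coeff 1) h4
  simp only [map_one, one_mul, HahnSeries.coeff_add, HahnSeries.C_apply,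
    HahnSeries.coeff_zero, HahnSeries.coeff_single_same] at h5
  rw [HahnSeries.coeff_single_of_ne (by norm_num)] at h5
  simp at h5

/-- Zariski density: the points of a Kummer system with an unramified rational point avoid every
given hypersurface -/
theorem dense (K : Type) [Field K] [Infinite K]
    (hK : ∀ n : ℕ, 1 ≤ n → (powMonoidHom n : Kˣ →* Kˣ).range.index ≠ 0)
    {I J V : Type} [Fintype I] [Fintype J] [Fintype V]
    (a : I → K) (A : I → V → K) (c : J → K) (m : J → ℕ) (e : J → I → ℕ) (hm : ∀ j, 1 ≤ m j)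
    (x0 : V → K) (y0 : J → K) (hy0 : ∀ j, y0 j ≠ 0)
    (h : ∀ j, y0 j ^ m j = c j * ∏ i, (a i + ∑ v, A i v * x0 v) ^ e j i)
    (P : MvPolynomial V K) (hP : P ≠ 0) :
    ∃ (x : V → K) (y : J → K), (∀ j, y j ≠ 0) ∧
      (∀ j, y j ^ m j = c j * ∏ i, (a i + ∑ v, A i v * x v) ^ e j i) ∧
      MvPolynomial.eval x P ≠ 0 := by
  classical
  have h1 : ∃ x1 : V → K, MvPolynomial.eval x1 P ≠ 0 := by
    by_contra hcon
    push Not at hcon
    exact hP (MvPolynomial.funext fun x => by rw [hcon x, map_zero])
  obtain ⟨x1, hx1⟩ := h1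
  let p : Polynomial K := MvPolynomial.aeval
    (fun v => Polynomial.C (x0 v) + Polynomial.C (x1 v - x0 v) * Polynomial.X) P
  have hp : ∀ s : K, Polynomial.eval s p =
      MvPolynomial.eval (fun v => x0 v + (x1 v - x0 v) * s) P := by
    intro s
    have h2 : Polynomial.eval s p = (Polynomial.aeval s p : K) := by
      rw [Polynomial.coe_aeval_eq_eval]
    rw [h2]
    simp only [p]
    rw [← AlgHom.comp_apply, MvPolynomial.comp_aeval, ← MvPolynomial.coe_aeval_eq_eval]
    have h3 : (fun v => (Polynomial.aeval s)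
        (Polynomial.C (x0 v) + Polynomial.C (x1 v - x0 v) * Polynomial.X)) =
        fun v => x0 v + (x1 v - x0 v) * s := by
      funext v
      simp
    rw [h3]
    rfl
  have hp0 : p ≠ 0 := by
    intro h0
    have h2 := hp 1
    rw [h0, Polynomial.eval_zero] at h2
    apply hx1
    rw [h2]
    congr 1
    congr 1
    funext v
    ring
  have hinf := line K hK (fun i => a i + ∑ v, A i v * x0 v)
    (fun i => ∑ v, A i v * (x1 v - x0 v)) c m e hm y0 hy0 h
  obtain ⟨s, ⟨y, hy, hys⟩, hs⟩ := hinf.exists_notMem_finset p.roots.toFinset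
  refine ⟨fun v => x0 v + (x1 v - x0 v) * s, y, hy, fun j => ?_, ?_⟩
  · rw [hys j]
    congr 1
    apply Finset.prod_congr rfl
    intro i _
    congr 1
    rw [Finset.sum_mul, add_assoc, ← Finset.sum_add_distrib]
    congr 1
    apply Finset.sum_congr rfl
    intro v _
    ring
  · rw [← hp s]
    intro h0
    exact hs (by
      rw [Multiset.mem_toFinset, Polynomial.mem_roots hp0]
      exact h0)

end Pool.TH901.AR
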