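import Pool.Agent.TH901.AR.Cw

/-!
# Artin–Schreier systems
-/

set_option autoImplicit false

namespace Pool.TH901.AR

open Finset

/-- the map `y ↦ y ^ p - y` -/
def wp (K : Type) [Field K] (p : ℕ) [Fact p.Prime] [CharP K p] : K →+ K where
  toFun y := y ^ p - y
  map_zero' := by simp [(Fact.out : p.Prime).ne_zero]
  map_add' x y := by rw [add_pow_char]; ring

theorem line_eval {K V : Type} [Field K] (x0 d : V → K) (P : MvPolynomial V K) (s : K) :
    Polynomial.eval s (MvPolynomial.aeval
      (fun v => Polynomial.C (x0 v) + Polynomial.C (d v) * Polynomial.X) P) =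
      MvPolynomial.eval (fun v => x0 v + d v * s) P := by
  rw [← Polynomial.coe_aeval_eq_eval]
  rw [← AlgHom.comp_apply, MvPolynomial.comp_aeval, ← MvPolynomial.coe_aeval_eq_eval]
  have h3 : (fun v => (Polynomial.aeval s)
      (Polynomial.C (x0 v) + Polynomial.C (d v) * Polynomial.X)) =
      fun v => x0 v + d v * s := by
    funext v
    simp
  rw [h3]
  rfl

theorem as_dense {p : ℕ} [Fact p.Prime] {K : Type} [Field K] [CharP K p] [Infinite K]
    (hH : (wp K p).range.index ≠ 0) {J V : Type} [Fintype J]
    (f : J → MvPolynomial V K) (x0 : V → K) (y0 : J → K)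
    (h : ∀ j, y0 j ^ p - y0 j = MvPolynomial.eval x0 (f j))
    (P : MvPolynomial V K) (hP : P ≠ 0) :
    ∃ (x : V → K) (y : J → K), (∀ j, y j ^ p - y j = MvPolynomial.eval x (f j)) ∧
      MvPolynomial.eval x P ≠ 0 := by
  classical
  let _ : Algebra (ZMod p) K := ZMod.algebra K p
  let Q : Submodule (ZMod p) K := AddSubgroup.toZModSubmodule p (wp K p).range
  have : (wp K p).range.FiniteIndex := ⟨hH⟩
  have hQ : Finite (K ⧸ Q) :=
    inferInstanceAs (Finite (K ⧸ (wp K p).range))
  have h1 : ∃ x1 : V → K, MvPolynomial.eval x1 P ≠ 0 := by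
    by_contra hcon
    push Not at hcon
    exact hP (MvPolynomial.funext fun x => by rw [hcon x, map_zero])
  obtain ⟨x1, hx1⟩ := h1
  let d : V → K := fun v => x1 v - x0 v
  let p' : Polynomial K := MvPolynomial.aeval
    (fun v => Polynomial.C (x0 v) + Polynomial.C (d v) * Polynomial.X) P
  have hp0 : p' ≠ 0 := by
    intro h0
    have h2 := line_eval x0 d P 1
    change Polynomial.eval 1 p' = _ at h2
    rw [h0, Polynomial.eval_zero] at h2
    apply hx1
    rw [h2]
    congr 1
    congr 1
    funext v
    simp only [d]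
    ring
  have hinf := common Q hQ (fun j => MvPolynomial.aeval
    (fun v => Polynomial.C (x0 v) + Polynomial.C (d v) * Polynomial.X) (f j) -
      Polynomial.C (MvPolynomial.eval x0 (f j))) (fun j => by
        rw [Polynomial.eval_sub, line_eval, Polynomial.eval_C]
        simp)
  obtain ⟨s, hs1, hs⟩ := hinf.exists_notMem_finset p'.roots.toFinset
  have hz : ∀ j, ∃ z : K, z ^ p - z = MvPolynomial.eval (fun v => x0 v + d v * s) (f j) -
      MvPolynomial.eval x0 (f j) := by
    intro j
    have h2 := hs1 j
    rw [Polynomial.eval_sub, line_eval, Polynomial.eval_C] at h2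
    obtain ⟨z, hz⟩ := h2
    exact ⟨z, hz⟩
  choose z hz using hz
  refine ⟨fun v => x0 v + d v * s, fun j => y0 j + z j, fun j => ?_, ?_⟩
  · rw [add_pow_char]
    linear_combination h j + hz j
  · rw [← line_eval]
    intro h0
    exact hs (by
      rw [Multiset.mem_toFinset, Polynomial.mem_roots hp0]
      exact h0)

end Pool.TH901.AR
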