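import Pool.Agent.TH901.AR.Thick

/-!
# Specialising Laurent series coefficient by coefficient
-/

set_option autoImplicit false

namespace Pool.TH901.AR

open Finset

/-- one step: a scale `z ∈ G` for which `c + z T ∈ c G` for finitely many pairs `(c, T)`, `c ≠ 0` -/
theorem step {K : Type*} [Field K] [Infinite K] (G : Subgroup Kˣ) [G.FiniteIndex]
    {ι : Type*} [Fintype ι] (c T : ι → K) :
    ∃ z ∈ G, ∀ i, c i ≠ 0 → ∃ g ∈ G, c i + (z : K) * T i = c i * ((g : Kˣ) : K) := by
  classical
  obtain ⟨w, hw⟩ := thick G (insert 0 (Finset.univ.image (fun i => T i / c i))) 1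
  obtain ⟨g0, hg0, h0⟩ := hw 0 (Finset.mem_insert_self _ _)
  rw [add_zero, one_mul] at h0
  refine ⟨g0⁻¹, G.inv_mem hg0, fun i hi => ?_⟩
  obtain ⟨g, hg, h1⟩ := hw (T i / c i)
    (Finset.mem_insert_of_mem (Finset.mem_image_of_mem _ (Finset.mem_univ i)))
  rw [one_mul, h0] at h1
  refine ⟨g0⁻¹ * g, G.mul_mem (G.inv_mem hg0) hg, ?_⟩
  have hne : (g0 : K) ≠ 0 := Units.ne_zero _
  rw [Units.val_mul, ← h1, Units.val_inv_eq_inv_val]
  field_simp

/-- all scales at once: the sum `∑ τ_j v_j` lies coordinatewise in the coset of the first nonzero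
coefficient -/
theorem comb {K : Type*} [Field K] [Infinite K] (G : Subgroup Kˣ) [G.FiniteIndex]
    {ι : Type*} [Fintype ι] (s : ℕ) : ∀ v : ℕ → ι → K, ∃ τ : ℕ → Kˣ, (∀ k, τ k ∈ G) ∧
      ∀ i, ∀ k < s, v k i ≠ 0 → (∀ j < k, v j i = 0) →
        ∃ g ∈ G, ∑ j ∈ range s, (τ j : K) * v j i = v k i * ((g : Kˣ) : K) := by
  induction s with
  | zero =>
    intro v
    exact ⟨fun _ => 1, fun _ => G.one_mem, fun i k hk => absurd hk (Nat.not_lt_zero k)⟩
  | succ s ih =>
    intro v
    obtain ⟨τ', hτ', h⟩ := ih (fun j => v (j + 1))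
    obtain ⟨z, hz, hz2⟩ := step G (v 0) (fun i => ∑ j ∈ range s, (τ' j : K) * v (j + 1) i)
    refine ⟨fun k => Nat.casesOn k 1 (fun j => z * τ' j), ?_, ?_⟩
    · intro k
      cases k with
      | zero => exact G.one_mem
      | succ j => exact G.mul_mem hz (hτ' j)
    · intro i k hk hv h0
      have hsum : ∑ j ∈ range (s + 1), (((Nat.casesOn j 1 (fun j => z * τ' j) : Kˣ)) : K) * v j i =
          v 0 i + (z : K) * ∑ j ∈ range s, (τ' j : K) * v (j + 1) i := by
        rw [Finset.sum_range_succ', add_comm, Finset.mul_sum]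
        congr 1
        · simp
        · apply Finset.sum_congr rfl
          intro j _
          simp [mul_assoc]
      rw [hsum]
      cases k with
      | zero => exact hz2 i hv
      | succ k =>
        obtain ⟨g, hg, h3⟩ := h i k (by omega) hv (fun j hj => h0 (j + 1) (by omega))
        refine ⟨z * g, G.mul_mem hz hg, ?_⟩
        rw [h0 0 (by omega), zero_add, h3, Units.val_mul]
        ring

end Pool.TH901.AR
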