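import Pool.Agent.TH901.AR.Comb

/-!
# Affine forms over Laurent series and leading coefficients
-/

set_option autoImplicit false

namespace Pool.TH901.AR

open Finset

theorem core {K : Type*} [Field K] [Infinite K] (G : Subgroup Kˣ) [G.FiniteIndex]
    {I V : Type*} [Fintype I] [Fintype V] (a : I → K) (A : I → V → K)
    (ξ : V → LaurentSeries K) :
    ∃ x : V → K, ∀ i, ∃ g ∈ G, a i + ∑ v, A i v * x v =
      (HahnSeries.C (a i) + ∑ v, HahnSeries.C (A i v) * ξ v : LaurentSeries K).leadingCoeff *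
        ((g : Kˣ) : K) := by
  classical
  set Ξ : I → LaurentSeries K := fun i => HahnSeries.C (a i) + ∑ v, HahnSeries.C (A i v) * ξ v
    with hΞ
  have hcoeff : ∀ i (n : ℤ), (Ξ i).coeff n =
      (if n = 0 then a i else 0) + ∑ v, A i v * (ξ v).coeff n := by
    intro i n
    simp only [hΞ, HahnSeries.coeff_add, HahnSeries.coeff_sum, HahnSeries.C_apply,
      HahnSeries.coeff_single_zero_mul]
    congr 1
    by_cases hn : n = 0
    · subst hn; simp
    · rw [HahnSeries.coeff_single_of_ne hn, if_neg hn]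
  set N : ℕ := ∑ v, (ξ v).order.natAbs with hN
  set N' : ℕ := ∑ i, (Ξ i).order.natAbs + 1 with hN'
  have hlow : ∀ v (n : ℤ), n < -(N : ℤ) → (ξ v).coeff n = 0 := by
    intro v n hn
    apply HahnSeries.coeff_eq_zero_of_lt_order
    have h1 : (ξ v).order.natAbs ≤ N :=
      Finset.single_le_sum (f := fun v => (ξ v).order.natAbs) (fun _ _ => Nat.zero_le _)
        (Finset.mem_univ v)
    have : ((ξ v).order.natAbs : ℤ) ≤ N := by exact_mod_cast h1
    omega
  have hlowΞ : ∀ i (n : ℤ), n < -(N : ℤ) → (Ξ i).coeff n = 0 := by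
    intro i n hn
    rw [hcoeff, if_neg (by omega), zero_add]
    exact Finset.sum_eq_zero fun v _ => by rw [hlow v n hn, mul_zero]
  obtain ⟨τ, hτ, hc⟩ := comb G (N + N' + 1) (fun k i => (Ξ i).coeff ((k : ℤ) - N))
  refine ⟨fun v => ((τ N : Kˣ) : K)⁻¹ *
    ∑ j ∈ range (N + N' + 1), (τ j : K) * (ξ v).coeff ((j : ℤ) - N), fun i => ?_⟩
  have hτ0 : ((τ N : Kˣ) : K) ≠ 0 := Units.ne_zero _
  have key : a i + ∑ v, A i v * (((τ N : Kˣ) : K)⁻¹ *
      ∑ j ∈ range (N + N' + 1), (τ j : K) * (ξ v).coeff ((j : ℤ) - N)) =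
      ((τ N : Kˣ) : K)⁻¹ * ∑ j ∈ range (N + N' + 1), (τ j : K) * (Ξ i).coeff ((j : ℤ) - N) := by
    have h1 : ∑ j ∈ range (N + N' + 1), (τ j : K) * (Ξ i).coeff ((j : ℤ) - N) =
        (τ N : K) * a i + ∑ v, A i v * ∑ j ∈ range (N + N' + 1),
          (τ j : K) * (ξ v).coeff ((j : ℤ) - N) := by
      simp only [hcoeff, mul_add, Finset.sum_add_distrib]
      congr 1
      · rw [Finset.sum_eq_single N]
        · simp
        · intro j _ hj
          rw [if_neg (by omega), mul_zero]
        · intro h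
          exact absurd (Finset.mem_range.2 (by omega)) h
      · simp only [Finset.mul_sum]
        rw [Finset.sum_comm]
        apply Finset.sum_congr rfl
        intro v _
        apply Finset.sum_congr rfl
        intro j _
        ring
    rw [h1, mul_add, inv_mul_cancel_left₀ hτ0, Finset.mul_sum]
    congr 1
    apply Finset.sum_congr rfl
    intro v _
    ring
  rw [key]
  change ∃ g ∈ G, _ = (Ξ i).leadingCoeff * _
  by_cases h0 : Ξ i = 0
  · refine ⟨1, G.one_mem, ?_⟩
    rw [h0]
    simp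
  · have hne : (Ξ i).coeff (Ξ i).order ≠ 0 := HahnSeries.coeff_order_eq_zero.not.2 h0
    have hge : -(N : ℤ) ≤ (Ξ i).order := by
      by_contra hlt
      exact hne (hlowΞ i _ (not_le.1 hlt))
    have hle : ((Ξ i).order.natAbs : ℤ) < N' := by
      have h1 : (Ξ i).order.natAbs ≤ ∑ i, (Ξ i).order.natAbs :=
        Finset.single_le_sum (f := fun i => (Ξ i).order.natAbs) (fun _ _ => Nat.zero_le _)
          (Finset.mem_univ i)
      have h2 : (Ξ i).order.natAbs < N' := by omega
      exact_mod_cast h2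
    obtain ⟨g, hg, h3⟩ := hc i ((Ξ i).order + N).toNat (by omega)
      (by
        have : ((((Ξ i).order + N).toNat : ℕ) : ℤ) - N = (Ξ i).order := by omega
        simp only [this]
        exact hne)
      (by
        intro j hj
        apply HahnSeries.coeff_eq_zero_of_lt_order
        omega)
    have h4 : ((((Ξ i).order + N).toNat : ℕ) : ℤ) - N = (Ξ i).order := by omega
    simp only [h4] at h3
    refine ⟨(τ N)⁻¹ * g, G.mul_mem (G.inv_mem (hτ N)) hg, ?_⟩
    rw [h3, HahnSeries.leadingCoeff_eq, Units.val_mul, Units.val_inv_eq_inv_val]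
    ring

end Pool.TH901.AR
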