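import Mathlib

/-!
# Polynomials without constant term and additive subgroups of finite index in characteristic `p`
-/

set_option autoImplicit false

namespace Pool.TH901.AR

open Finset MvPolynomial

/-- vectors whose nonzero `𝔽_p`-combinations avoid a finite set -/
theorem avoid {p : ℕ} [Fact p.Prime] {K : Type} [Field K] [Algebra (ZMod p) K] [Infinite K]
    (F : Finset K) (N : ℕ) :
    ∃ w : Fin N → K, ∀ t : Fin N → ZMod p, t ≠ 0 → ∑ i, t i • w i ∉ F := by
  classical
  induction N with
  | zero =>
    refine ⟨fun _ => 0, fun t ht => absurd (funext fun i => i.elim0) ht⟩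
  | succ N ih =>
    obtain ⟨w, hw⟩ := ih
    obtain ⟨u, hu⟩ := Infinite.exists_notMem_finset
      ((F ×ˢ ((Finset.univ : Finset (Fin N → ZMod p)) ×ˢ (Finset.univ : Finset (ZMod p)))).image
        (fun q => q.2.2⁻¹ • (q.1 - ∑ i, q.2.1 i • w i)))
    refine ⟨Fin.cons u w, fun t ht hF => ?_⟩
    rw [Fin.sum_univ_succ] at hF
    simp only [Fin.cons_zero, Fin.cons_succ] at hF
    by_cases h0 : t 0 = 0
    · rw [h0, zero_smul, zero_add] at hF
      refine hw (fun i => t i.succ) (fun h => ht ?_) hF
      funext i
      refine Fin.cases h0 (fun i => ?_) i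
      exact congrFun h i
    · apply hu
      rw [Finset.mem_image]
      refine ⟨(t 0 • u + ∑ i : Fin N, t i.succ • w i, (fun i => t i.succ), t 0), ?_, ?_⟩
      · simp [hF]
      · simp only [add_sub_cancel_right]
        rw [smul_smul, inv_mul_cancel₀ h0, one_smul]

/-- reduction of a polynomial function modulo a linear functional -/
theorem reduce {p : ℕ} [Fact p.Prime] {K : Type} [Field K] [Algebra (ZMod p) K] {N : ℕ}
    (w : Fin N → K) (g : Polynomial K) (lam : K →ₗ[ZMod p] ZMod p) :
    ∃ h : MvPolynomial (Fin N) (ZMod p), h.totalDegree ≤ g.natDegree ∧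
      ∀ t : Fin N → ZMod p, eval t h = lam (g.eval (∑ i, t i • w i)) := by
  classical
  let L : MvPolynomial (Fin N) K := ∑ i, monomial (Finsupp.single i 1) (w i)
  let G : MvPolynomial (Fin N) K := Polynomial.aeval L g
  have hL : L.totalDegree ≤ 1 := by
    refine (totalDegree_finsetSum _ _).trans (Finset.sup_le fun i _ => ?_)
    refine (totalDegree_monomial_le _ _).trans ?_
    simp
  have hG : G.totalDegree ≤ g.natDegree := by
    simp only [G]
    rw [Polynomial.aeval_eq_sum_range]
    refine (totalDegree_finsetSum _ _).trans (Finset.sup_le fun n hn => ?_)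
    refine (totalDegree_smul_le _ _).trans ((totalDegree_pow _ _).trans ?_)
    have := Finset.mem_range.1 hn
    nlinarith
  refine ⟨∑ m ∈ G.support, monomial m (lam (G.coeff m)), ?_, fun t => ?_⟩
  · refine (totalDegree_finsetSum _ _).trans (Finset.sup_le fun m hm => ?_)
    refine (totalDegree_monomial_le _ _).trans ?_
    exact (le_totalDegree hm).trans hG
  · have h1 : g.eval (∑ i, t i • w i) = eval (fun i => algebraMap (ZMod p) K (t i)) G := by
      have h2 : eval (fun i => algebraMap (ZMod p) K (t i)) G =
          (MvPolynomial.aeval (fun i => algebraMap (ZMod p) K (t i)) G : K) := by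
        rw [← MvPolynomial.coe_aeval_eq_eval]
        rfl
      rw [h2]
      simp only [G]
      rw [← Polynomial.aeval_algHom_apply]
      rw [← Polynomial.coe_aeval_eq_eval]
      congr 2
      simp only [L, map_sum, MvPolynomial.aeval_monomial, Algebra.algebraMap_self, RingHom.id_apply]
      apply Finset.sum_congr rfl
      intro i _
      simp [Algebra.smul_def, mul_comm]
    have h4 : eval (fun i => algebraMap (ZMod p) K (t i)) G = ∑ m ∈ G.support,
        G.coeff m * ∏ i ∈ m.support, (algebraMap (ZMod p) K (t i)) ^ m i := eval_eq _ _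
    rw [h1, h4, map_sum, map_sum]
    apply Finset.sum_congr rfl
    intro m _
    rw [eval_monomial]
    have h3 : G.coeff m * ∏ i ∈ m.support, (algebraMap (ZMod p) K (t i)) ^ m i =
        (∏ i ∈ m.support, t i ^ m i) • G.coeff m := by
      rw [Algebra.smul_def, map_prod]
      simp only [map_pow]
      ring
    rw [h3, map_smul, smul_eq_mul, mul_comm, Finsupp.prod]


/-- a finite index additive subgroup contains infinitely many common values of polynomials without
constant term -/
theorem common {p : ℕ} [Fact p.Prime] {K : Type} [Field K] [Algebra (ZMod p) K] [Infinite K]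
    (Q : Submodule (ZMod p) K) (hQ : Finite (K ⧸ Q)) {J : Type} [Fintype J]
    (g : J → Polynomial K) (hg : ∀ j, (g j).eval 0 = 0) :
    {s : K | ∀ j, (g j).eval s ∈ Q}.Infinite := by
  classical
  intro hfin
  let F : Finset K := hfin.toFinset
  let b := Module.finBasis (ZMod p) (K ⧸ Q)
  let r := Module.finrank (ZMod p) (K ⧸ Q)
  let lam : Fin r → (K →ₗ[ZMod p] ZMod p) := fun k => (b.coord k).comp Q.mkQ
  have hlam : ∀ x : K, (∀ k, lam k x = 0) → x ∈ Q := by
    intro x hx
    rw [← Submodule.Quotient.mk_eq_zero]
    apply b.ext_elem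
    intro k
    have := hx k
    simp only [lam, LinearMap.comp_apply, Submodule.mkQ_apply, Module.Basis.coord_apply] at this
    rw [this, map_zero]
    rfl
  let N := r * ∑ j, (g j).natDegree + 1
  obtain ⟨w, hw⟩ := avoid (p := p) F N
  have hh : ∀ q : J × Fin r, ∃ h : MvPolynomial (Fin N) (ZMod p),
      h.totalDegree ≤ (g q.1).natDegree ∧
      ∀ t : Fin N → ZMod p, eval t h = lam q.2 ((g q.1).eval (∑ i, t i • w i)) :=
    fun q => reduce w (g q.1) (lam q.2)
  choose h hdeg hev using hh
  have hsum : ∑ q, (h q).totalDegree < Fintype.card (Fin N) := by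
    rw [Fintype.card_fin]
    calc ∑ q, (h q).totalDegree ≤ ∑ q : J × Fin r, (g q.1).natDegree :=
          Finset.sum_le_sum fun q _ => hdeg q
      _ = r * ∑ j, (g j).natDegree := by
          rw [Fintype.sum_prod_type]
          simp only [Finset.sum_const, Finset.card_univ, Fintype.card_fin, smul_eq_mul]
          rw [Finset.mul_sum]
      _ < N := Nat.lt_succ_self _
  have hdvd := char_dvd_card_solutions_of_fintype_sum_lt p hsum
  have h0 : ∀ q, eval (0 : Fin N → ZMod p) (h q) = 0 := by
    intro q
    rw [hev]
    simp [hg]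
  have hne : ∃ t : Fin N → ZMod p, t ≠ 0 ∧ ∀ q, eval t (h q) = 0 := by
    by_contra hcon
    push Not at hcon
    have hone : Fintype.card {x : Fin N → ZMod p // ∀ i, eval x (h i) = 0} = 1 := by
      rw [Fintype.card_eq_one_iff]
      refine ⟨⟨0, h0⟩, fun y => ?_⟩
      apply Subtype.ext
      by_contra hy
      obtain ⟨q, hq⟩ := hcon y.1 hy
      exact hq (y.2 q)
    rw [hone] at hdvd
    exact (Fact.out : p.Prime).one_lt.ne' (Nat.dvd_one.1 hdvd)
  obtain ⟨t, ht0, ht⟩ := hne
  apply hw t ht0
  rw [Set.Finite.mem_toFinset]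
  intro j
  apply hlam
  intro k
  rw [← hev (j, k) t]
  exact ht (j, k)

end Pool.TH901.AR
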