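import Pool.Agent.TH901.AR.Core

/-!
# Kummer systems over affine forms
-/

set_option autoImplicit false

namespace Pool.TH901.AR

open Finset

/-- the leading coefficient as a monoid homomorphism -/
noncomputable def lcHom (K : Type) [Field K] : LaurentSeries K →* K where
  toFun := HahnSeries.leadingCoeff
  map_one' := HahnSeries.leadingCoeff_one
  map_mul' := fun x y => HahnSeries.leadingCoeff_mul x y

theorem lc_C {K : Type} [Field K] (c : K) :
    (HahnSeries.C c : LaurentSeries K).leadingCoeff = c := by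
  rw [HahnSeries.C_apply, HahnSeries.leadingCoeff_of_single]

/-- only the leading coefficients of the equations matter -/
theorem kc (K : Type) [Field K] [Infinite K]
    (hK : ∀ n : ℕ, 1 ≤ n → (powMonoidHom n : Kˣ →* Kˣ).range.index ≠ 0)
    {I J V : Type} [Fintype I] [Fintype J] [Fintype V]
    (a : I → K) (A : I → V → K) (c : J → K) (m : J → ℕ) (e : J → I → ℕ) (hm : ∀ j, 1 ≤ m j)
    (ξ : V → LaurentSeries K) (η : J → K)
    (h : ∀ j, η j ^ m j = c j * ∏ i,
      (HahnSeries.C (a i) + ∑ v, HahnSeries.C (A i v) * ξ v : LaurentSeries K).leadingCoeff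
        ^ e j i) :
    ∃ (x : V → K) (y : J → K), (∀ j, y j ^ m j = c j * ∏ i, (a i + ∑ v, A i v * x v) ^ e j i) ∧
      (∀ i, a i + ∑ v, A i v * x v = 0 ↔
        (HahnSeries.C (a i) + ∑ v, HahnSeries.C (A i v) * ξ v : LaurentSeries K) = 0) ∧
      ∀ j, y j = 0 ↔ η j = 0 := by
  classical
  set n : ℕ := ∏ j, m j with hn
  have hn1 : 1 ≤ n := Nat.one_le_iff_ne_zero.2
    (Finset.prod_ne_zero_iff.2 fun j _ => Nat.one_le_iff_ne_zero.1 (hm j))
  have : (powMonoidHom n : Kˣ →* Kˣ).range.FiniteIndex := ⟨hK n hn1⟩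
  obtain ⟨x, hx⟩ := core (powMonoidHom n : Kˣ →* Kˣ).range a A ξ
  choose g hg hgx using hx
  choose r hr using hg
  refine ⟨x, fun j => η j * (∏ i, ((r i : Kˣ) : K) ^ e j i) ^ (n / m j), fun j => ?_, fun i => ?_,
    fun j => ?_⟩
  · have hdiv : n / m j * m j = n := Nat.div_mul_cancel (Finset.dvd_prod_of_mem m (mem_univ j))
    rw [mul_pow, ← pow_mul, hdiv, h j, mul_assoc, ← Finset.prod_pow, ← Finset.prod_mul_distrib]
    congr 1
    apply Finset.prod_congr rfl
    intro i _
    rw [hgx i, ← hr i, mul_pow]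
    congr 1
    simp only [powMonoidHom_apply, Units.val_pow_eq_pow_val]
    rw [← pow_mul, ← pow_mul, mul_comm]
  · rw [hgx i]
    constructor
    · intro h0
      rcases mul_eq_zero.1 h0 with h1 | h1
      · exact HahnSeries.leadingCoeff_eq_zero.1 h1
      · exact absurd h1 (Units.ne_zero _)
    · intro h0
      rw [h0]
      simp
  · constructor
    · intro h0
      rcases mul_eq_zero.1 h0 with h1 | h1
      · exact h1
      · exact absurd h1 (pow_ne_zero _ (Finset.prod_ne_zero_iff.2
          fun i _ => pow_ne_zero _ (Units.ne_zero _)))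
    · intro h0
      simp [h0]

/-- Kummer systems -/
theorem kummer (K : Type) [Field K] [Infinite K]
    (hK : ∀ n : ℕ, 1 ≤ n → (powMonoidHom n : Kˣ →* Kˣ).range.index ≠ 0)
    {I J V : Type} [Fintype I] [Fintype J] [Fintype V]
    (a : I → K) (A : I → V → K) (c : J → K) (m : J → ℕ) (e : J → I → ℕ) (hm : ∀ j, 1 ≤ m j)
    (ξ : V → LaurentSeries K) (υ : J → LaurentSeries K)
    (h : ∀ j, υ j ^ m j = HahnSeries.C (c j) * ∏ i,
      (HahnSeries.C (a i) + ∑ v, HahnSeries.C (A i v) * ξ v) ^ e j i) :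
    ∃ (x : V → K) (y : J → K), (∀ j, y j ^ m j = c j * ∏ i, (a i + ∑ v, A i v * x v) ^ e j i) ∧
      (∀ i, a i + ∑ v, A i v * x v = 0 ↔
        (HahnSeries.C (a i) + ∑ v, HahnSeries.C (A i v) * ξ v : LaurentSeries K) = 0) ∧
      ∀ j, y j = 0 ↔ υ j = 0 := by
  obtain ⟨x, y, h1, h2, h3⟩ := kc K hK a A c m e hm ξ (fun j => (υ j).leadingCoeff) (fun j => by
    have := congrArg (lcHom K) (h j)
    rw [map_pow, map_mul, map_prod] at this
    simp only [map_pow] at this
    have h0 : lcHom K (HahnSeries.C (c j)) = c j := lc_C (c j)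
    rw [h0] at this
    exact this)
  exact ⟨x, y, h1, h2, fun j => by rw [h3 j, HahnSeries.leadingCoeff_eq_zero]⟩

/-- diagonal systems -/
theorem diagonal (K : Type) [Field K] [Infinite K]
    (hK : ∀ n : ℕ, 1 ≤ n → (powMonoidHom n : Kˣ →* Kˣ).range.index ≠ 0)
    {R J : Type} [Fintype R] [Fintype J] (b : R → K) (B : R → J → K) (m : J → ℕ)
    (hm : ∀ j, 1 ≤ m j) (η : J → LaurentSeries K)
    (h : ∀ r, ∑ j, HahnSeries.C (B r j) * η j ^ m j = HahnSeries.C (b r)) :
    ∃ y : J → K, (∀ r, ∑ j, B r j * y j ^ m j = b r) ∧ ∀ j, y j = 0 ↔ η j = 0 := by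
  classical
  obtain ⟨x, y, h1, h2, h3⟩ := kummer K hK (I := R ⊕ J) (J := J) (V := J)
    (fun i => Sum.elim (fun r => -b r) (fun _ => 0) i)
    (fun i => Sum.elim (fun r => B r) (fun j => Pi.single j 1) i)
    (fun _ => 1) m (fun j i => Sum.elim (fun _ => 0) (fun j' => if j = j' then 1 else 0) i) hm
    (fun j => η j ^ m j) η (by
      intro j
      rw [Fintype.prod_sum_type]
      simp only [Sum.elim_inl, Sum.elim_inr, pow_zero, Finset.prod_const_one, one_mul, map_one]
      rw [Finset.prod_eq_single j]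
      · rw [if_pos rfl, pow_one, map_zero, zero_add, Finset.sum_eq_single j]
        · rw [Pi.single_eq_same, map_one, one_mul]
        · intro k _ hk
          rw [Pi.single_eq_of_ne hk, map_zero, zero_mul]
        · intro hj; exact absurd (mem_univ j) hj
      · intro k _ hk
        rw [if_neg (Ne.symm hk), pow_zero]
      · intro hj; exact absurd (mem_univ j) hj)
  have hxy : ∀ j, y j ^ m j = x j := by
    intro j
    rw [h1 j, Fintype.prod_sum_type]
    simp only [Sum.elim_inl, Sum.elim_inr, pow_zero, Finset.prod_const_one, one_mul]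
    rw [Finset.prod_eq_single j]
    · rw [if_pos rfl, pow_one, zero_add, Finset.sum_eq_single j]
      · rw [Pi.single_eq_same, one_mul]
      · intro k _ hk
        rw [Pi.single_eq_of_ne hk, zero_mul]
      · intro hj; exact absurd (mem_univ j) hj
    · intro k _ hk
      rw [if_neg (Ne.symm hk), pow_zero]
    · intro hj; exact absurd (mem_univ j) hj
  refine ⟨y, fun r => ?_, h3⟩
  have h4 := (h2 (Sum.inl r)).2 (by
    simp only [Sum.elim_inl]
    rw [h r, map_neg, neg_add_cancel])
  simp only [Sum.elim_inl] at h4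
  have h5 : ∑ j, B r j * y j ^ m j = ∑ j, B r j * x j :=
    Finset.sum_congr rfl fun j _ => by rw [hxy j]
  rw [h5]
  linear_combination h4

end Pool.TH901.AR
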