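import Mathlib

/-!
# Finite index subgroups of the multiplicative group of an infinite field are thick

Every coset of a subgroup of finite index of `Kˣ` contains a translate of every finite subset of `K`.
-/

set_option autoImplicit false

namespace Pool.TH901.AR

open Finset

/-- weights with no vanishing subsum -/
theorem weights (K : Type*) [Field K] [Infinite K] (ι : Type) [Fintype ι] :
    ∃ lam : ι → K, ∀ s : Finset ι, s.Nonempty → ∑ i ∈ s, lam i ≠ 0 := by
  classical
  let e := Fintype.equivFin ι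
  let P : Finset ι → Polynomial K := fun s => ∑ i ∈ s, Polynomial.X ^ ((e i : Fin _) : ℕ)
  have hP : ∀ s : Finset ι, s.Nonempty → P s ≠ 0 := by
    intro s hs h0
    obtain ⟨i0, hi0⟩ := hs
    have h1 : (P s).coeff ((e i0 : Fin _) : ℕ) = 1 := by
      simp only [P, Polynomial.finsetSum_coeff, Polynomial.coeff_X_pow]
      rw [Finset.sum_eq_single i0]
      · simp
      · intro j _ hj
        rw [if_neg]
        intro h
        exact hj (e.injective (Fin.ext h.symm))
      · intro h
        exact absurd hi0 h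
    rw [h0] at h1
    simp at h1
  obtain ⟨t, ht⟩ := Infinite.exists_notMem_finset
    ((Finset.univ.filter (fun s : Finset ι => s.Nonempty)).biUnion (fun s => (P s).roots.toFinset))
  refine ⟨fun i => t ^ ((e i : Fin _) : ℕ), fun s hs h => ht ?_⟩
  rw [Finset.mem_biUnion]
  refine ⟨s, by simp [hs], ?_⟩
  rw [Multiset.mem_toFinset, Polynomial.mem_roots (hP s hs)]
  simp only [P, Polynomial.IsRoot.def, Polynomial.eval_finsetSum, Polynomial.eval_pow,
    Polynomial.eval_X]
  exact h

/-- monochromatic homothetic copies with a dilation factor different from `0` -/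
theorem copy {K κ : Type*} [Field K] [Infinite K] [Finite κ] (S : Finset K) (C : K → κ) :
    ∃ a : K, a ≠ 0 ∧ ∃ (b : K) (c : κ), ∀ s ∈ S, C (a * s + b) = c := by
  classical
  obtain ⟨ι, _inst, hι⟩ := Combinatorics.Line.exists_mono_in_high_dimension S κ
  obtain ⟨lam, hlam⟩ := weights K ι
  specialize hι fun v => C <| ∑ i, lam i * (v i : K)
  obtain ⟨l, c, hl⟩ := hι
  set s : Finset ι := {i | l.idxFun i = none} with hs
  refine ⟨∑ i ∈ s, lam i, hlam s ⟨l.proper.choose, ?_⟩,
    ∑ i ∈ sᶜ, lam i * (((l.idxFun i).map (fun m : S => (m : K))).getD 0), c, ?_⟩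
  · rw [hs, Finset.mem_filter]
    exact ⟨Finset.mem_univ _, l.proper.choose_spec⟩
  intro x xs
  rw [← hl ⟨x, xs⟩]
  clear hl; congr
  rw [← Finset.sum_add_sum_compl s]
  congr 1
  · rw [Finset.sum_mul]
    apply Finset.sum_congr rfl
    intro i hi
    rw [hs, Finset.mem_filter] at hi
    rw [l.apply_none _ _ hi.right]
  · apply Finset.sum_congr rfl
    intro i hi
    rw [hs, Finset.compl_filter, Finset.mem_filter] at hi
    obtain ⟨y, hy⟩ := Option.ne_none_iff_exists.mp hi.right
    simp [← hy, Option.map_some, Option.getD]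

/-- every coset of a finite index subgroup contains a translate of every finite set -/
theorem thick {K : Type*} [Field K] [Infinite K] (G : Subgroup Kˣ) [G.FiniteIndex]
    (S : Finset K) (u : Kˣ) : ∃ w : K, ∀ s ∈ S, ∃ g ∈ G, w + s = ((u * g : Kˣ) : K) := by
  classical
  let Th : (Kˣ ⧸ G) → Prop := fun q => ∀ S : Finset K, ∃ w : K, ∀ s ∈ S, ∃ v : Kˣ,
    (v : K) = w + s ∧ (v : Kˣ ⧸ G) = q
  have : Finite (Kˣ ⧸ G) := Subgroup.finite_quotient_of_finiteIndex
  let _ : Fintype (Kˣ ⧸ G) := Fintype.ofFinite _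
  have h1 : ∃ q, Th q := by
    by_contra hcon
    push Not at hcon
    have h2 : ∀ q, ∃ S : Finset K, ∀ w : K, ¬ ∀ s ∈ S, ∃ v : Kˣ,
        (v : K) = w + s ∧ (v : Kˣ ⧸ G) = q := by
      intro q
      have := hcon q
      simp only [Th, not_forall, not_exists] at this
      obtain ⟨S, hS⟩ := this
      refine ⟨S, fun w hw => ?_⟩
      obtain ⟨s, hs, h⟩ := hS w
      obtain ⟨v, hv⟩ := hw s hs
      exact h v hv
    choose F hF using h2
    let C : K → Option (Kˣ ⧸ G) := fun x => if h : x = 0 then none else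
      some ((Units.mk0 x h : Kˣ) : Kˣ ⧸ G)
    obtain ⟨a, ha, b, c, hc⟩ := copy ((Finset.univ.biUnion F) ∪ {0, 1}) C
    rcases c with _ | q'
    · have e0 := hc 0 (by simp)
      have e1 := hc 1 (by simp)
      simp only [C, mul_zero, zero_add, dite_eq_left_iff, reduceCtorEq, imp_false, not_not] at e0
      simp only [C, mul_one, dite_eq_left_iff, reduceCtorEq, imp_false, not_not] at e1
      rw [e0, add_zero] at e1
      exact ha e1
    · apply hF (((Units.mk0 a ha : Kˣ)⁻¹ : Kˣ) * q') (b / a)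
      intro s hs
      have e := hc s (by
        rw [Finset.mem_union]; left
        rw [Finset.mem_biUnion]
        exact ⟨_, Finset.mem_univ _, hs⟩)
      by_cases h0 : a * s + b = 0
      · simp [C, h0] at e
      · simp only [C, h0, dite_false, Option.some.injEq] at e
        refine ⟨(Units.mk0 a ha)⁻¹ * Units.mk0 (a * s + b) h0, ?_, ?_⟩
        · simp only [Units.val_mul, Units.val_inv_eq_inv_val, Units.val_mk0]
          field_simp
          ring
        · rw [QuotientGroup.mk_mul, e]
  obtain ⟨q, hq⟩ := h1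
  obtain ⟨q0, rfl⟩ := QuotientGroup.mk_surjective q
  obtain ⟨w, hw⟩ := hq (S.image (fun s => ((u * q0⁻¹ : Kˣ) : K)⁻¹ * s))
  refine ⟨((u * q0⁻¹ : Kˣ) : K) * w, fun s hs => ?_⟩
  obtain ⟨v, hv1, hv2⟩ := hw _ (Finset.mem_image_of_mem _ hs)
  refine ⟨q0⁻¹ * v, ?_, ?_⟩
  · rw [← QuotientGroup.eq]
    exact hv2.symm
  · have hne : ((u * q0⁻¹ : Kˣ) : K) ≠ 0 := Units.ne_zero _
    have : ((u * (q0⁻¹ * v) : Kˣ) : K) = ((u * q0⁻¹ : Kˣ) : K) * (v : K) := by
      rw [← Units.val_mul, mul_assoc]
    rw [this, hv1, mul_add, mul_inv_cancel_left₀ hne]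

end Pool.TH901.AR
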